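import Mathlib

/-!
Transfinite diameter (logarithmic capacity) of a bounded set in the plane.
-/

namespace Run7.h936.Gef

open Filter Topology Finset

/-- The `n`-th diameter of `K`: the supremum over all `z_1, …, z_n ∈ K` of
`(∏_{i ≠ j} |z_i - z_j|)^(1/(n(n-1)))`. -/
noncomputable def nthDiam (K : Set ℂ) (n : ℕ) : ℝ :=
  sSup {x : ℝ | ∃ z : Fin n → ℂ, (∀ i, z i ∈ K) ∧
    x = (∏ i, ∏ j ∈ univ.erase i, ‖z i - z j‖) ^ (1 / ((n : ℝ) * ((n : ℝ) - 1)))}

/-- `c` is the transfinite diameter (that is, the logarithmic capacity) of `K`: the limit of the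
`n`-th diameters. -/
def IsTransfiniteDiameter (K : Set ℂ) (c : ℝ) : Prop :=
  Tendsto (nthDiam K) atTop (𝓝 c)

/-- auxiliary version of the product -/
noncomputable def F {n : ℕ} (z : Fin n → ℂ) : ℝ :=
  ∏ i, ∏ j, if i = j then (1 : ℝ) else ‖z i - z j‖

lemma F_eq {n : ℕ} (z : Fin n → ℂ) :
    ∏ i, ∏ j ∈ univ.erase i, ‖z i - z j‖ = F z := by
  unfold F
  apply Finset.prod_congr rfl
  intro i _
  rw [← Finset.mul_prod_erase univ (fun j => if i = j then (1 : ℝ) else ‖z i - z j‖) (mem_univ i)]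
  simp only [if_true, one_mul]
  apply Finset.prod_congr rfl
  intro j hj
  rw [if_neg (Finset.ne_of_mem_erase hj).symm]

lemma F_nonneg {n : ℕ} (z : Fin n → ℂ) : 0 ≤ F z := by
  unfold F
  apply Finset.prod_nonneg; intro i _
  apply Finset.prod_nonneg; intro j _
  split_ifs
  · norm_num
  · exact norm_nonneg _

lemma F_le {n : ℕ} (z : Fin n → ℂ) (D : ℝ) (hD : 1 ≤ D) (h : ∀ i j, ‖z i - z j‖ ≤ D) :
    F z ≤ D ^ (n * (n - 1)) := by
  rw [← F_eq]
  calc ∏ i, ∏ j ∈ univ.erase i, ‖z i - z j‖ ≤ ∏ _i : Fin n, D ^ (n - 1) := by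
        apply Finset.prod_le_prod
        · intro i _; exact Finset.prod_nonneg fun _ _ => norm_nonneg _
        · intro i _
          calc ∏ j ∈ univ.erase i, ‖z i - z j‖ ≤ ∏ _j ∈ univ.erase i, D := by
                apply Finset.prod_le_prod
                · intro _ _; exact norm_nonneg _
                · intro j _; exact h i j
            _ = D ^ (n - 1) := by
                rw [Finset.prod_const, Finset.card_erase_of_mem (mem_univ i), Finset.card_univ,
                  Fintype.card_fin]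
    _ = D ^ (n * (n - 1)) := by
        rw [Finset.prod_const, Finset.card_univ, Fintype.card_fin, ← pow_mul, mul_comm]

/-- the set of values whose supremum is the `n`-th diameter -/
def vals (K : Set ℂ) (n : ℕ) : Set ℝ :=
  {x : ℝ | ∃ z : Fin n → ℂ, (∀ i, z i ∈ K) ∧
    x = (∏ i, ∏ j ∈ univ.erase i, ‖z i - z j‖) ^ (1 / ((n : ℝ) * ((n : ℝ) - 1)))}

lemma nthDiam_eq (K : Set ℂ) (n : ℕ) : nthDiam K n = sSup (vals K n) := rfl

lemma vals_bdd (K : Set ℂ) (D : ℝ) (hD : 1 ≤ D) (h : ∀ x ∈ K, ∀ y ∈ K, ‖x - y‖ ≤ D) (n : ℕ)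
    (hn : 2 ≤ n) : ∀ x ∈ vals K n, x ≤ D := by
  rintro x ⟨z, hz, rfl⟩
  rw [F_eq]
  have h1 := F_le z D hD (fun i j => h _ (hz i) _ (hz j))
  have hn' : (0 : ℝ) < (n : ℝ) * ((n : ℝ) - 1) := by
    have : (2 : ℝ) ≤ n := by exact_mod_cast hn
    nlinarith
  have h2 : ((n * (n - 1) : ℕ) : ℝ) = (n : ℝ) * ((n : ℝ) - 1) := by
    push_cast [Nat.cast_sub (by omega : 1 ≤ n)]
    ring
  calc F z ^ (1 / ((n : ℝ) * ((n : ℝ) - 1))) ≤
      (D ^ (n * (n - 1))) ^ (1 / ((n : ℝ) * ((n : ℝ) - 1))) := by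
        apply Real.rpow_le_rpow (F_nonneg z) h1 (by positivity)
    _ = D := by
        rw [← Real.rpow_natCast, ← Real.rpow_mul (by linarith), h2, mul_one_div_cancel hn'.ne',
          Real.rpow_one]

lemma F_succ {n : ℕ} (z : Fin (n + 1) → ℂ) (k : Fin (n + 1)) :
    F z = (∏ j, if k = j then (1 : ℝ) else ‖z k - z j‖) *
      (∏ i, if i = k then (1 : ℝ) else ‖z i - z k‖) * F (fun a => z (k.succAbove a)) := by
  unfold F
  rw [Fin.prod_univ_succAbove _ k]
  have h1 : ∀ a : Fin n, (∏ j, if k.succAbove a = j then (1 : ℝ) else ‖z (k.succAbove a) - z j‖) =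
      ‖z (k.succAbove a) - z k‖ * ∏ b : Fin n, if a = b then (1 : ℝ) else
        ‖z (k.succAbove a) - z (k.succAbove b)‖ := by
    intro a
    rw [Fin.prod_univ_succAbove _ k, if_neg (Fin.succAbove_ne k a)]
    congr 1
    apply Finset.prod_congr rfl
    intro b _
    simp only [Fin.succAbove_right_inj]
  have h2 : (∏ i, if i = k then (1 : ℝ) else ‖z i - z k‖) =
      ∏ a : Fin n, ‖z (k.succAbove a) - z k‖ := by
    rw [Fin.prod_univ_succAbove _ k, if_pos rfl, one_mul]
    apply Finset.prod_congr rfl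
    intro b _
    rw [if_neg (Fin.succAbove_ne k b)]
  rw [h2]
  simp_rw [h1]
  rw [Finset.prod_mul_distrib]
  ring

lemma F_pow {n : ℕ} (z : Fin (n + 1) → ℂ) (hn : 2 ≤ n) (h0 : 0 < F z) :
    F z ^ (n - 1) = ∏ k : Fin (n + 1), F (fun a => z (k.succAbove a)) := by
  have h1 : F z ^ (n + 1) = F z * F z * ∏ k : Fin (n + 1), F (fun a => z (k.succAbove a)) := by
    calc F z ^ (n + 1) = ∏ _k : Fin (n + 1), F z := by
          rw [Finset.prod_const, Finset.card_univ, Fintype.card_fin]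
      _ = ∏ k : Fin (n + 1), ((∏ j, if k = j then (1 : ℝ) else ‖z k - z j‖) *
          (∏ i, if i = k then (1 : ℝ) else ‖z i - z k‖) * F (fun a => z (k.succAbove a))) :=
          Finset.prod_congr rfl fun k _ => F_succ z k
      _ = F z * F z * ∏ k : Fin (n + 1), F (fun a => z (k.succAbove a)) := by
          rw [Finset.prod_mul_distrib, Finset.prod_mul_distrib]
          congr 2
          unfold F
          rw [Finset.prod_comm]
  have h2 : F z ^ (n + 1) = F z * F z * F z ^ (n - 1) := by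
    obtain ⟨m, rfl⟩ : ∃ m, n = m + 1 := ⟨n - 1, by omega⟩
    simp only [Nat.add_sub_cancel]
    ring
  rw [h2] at h1
  exact mul_left_cancel₀ (by positivity) h1

lemma nthDiam_nonneg (K : Set ℂ) (n : ℕ) : 0 ≤ nthDiam K n := by
  apply Real.sSup_nonneg
  rintro x ⟨z, _, rfl⟩
  rw [F_eq]
  exact Real.rpow_nonneg (F_nonneg z) _

lemma F_le_nthDiam (K : Set ℂ) (D : ℝ) (hD : 1 ≤ D) (h : ∀ x ∈ K, ∀ y ∈ K, ‖x - y‖ ≤ D) (n : ℕ)
    (hn : 2 ≤ n) (z : Fin n → ℂ) (hz : ∀ i, z i ∈ K) : F z ≤ nthDiam K n ^ (n * (n - 1)) := by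
  have h1 : F z ^ (1 / ((n : ℝ) * ((n : ℝ) - 1))) ≤ nthDiam K n := by
    rw [nthDiam_eq]
    apply le_csSup ⟨D, vals_bdd K D hD h n hn⟩
    exact ⟨z, hz, by rw [F_eq]⟩
  have hn' : (0 : ℝ) < (n : ℝ) * ((n : ℝ) - 1) := by
    have : (2 : ℝ) ≤ n := by exact_mod_cast hn
    nlinarith
  have h2 : ((n * (n - 1) : ℕ) : ℝ) = (n : ℝ) * ((n : ℝ) - 1) := by
    push_cast [Nat.cast_sub (by omega : 1 ≤ n)]
    ring
  calc F z = (F z ^ (1 / ((n : ℝ) * ((n : ℝ) - 1)))) ^ (n * (n - 1)) := by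
        rw [← Real.rpow_natCast, ← Real.rpow_mul (F_nonneg z), h2, one_div_mul_cancel hn'.ne',
          Real.rpow_one]
    _ ≤ nthDiam K n ^ (n * (n - 1)) := by
        apply pow_le_pow_left₀ (Real.rpow_nonneg (F_nonneg z) _) h1

lemma nthDiam_succ_le (K : Set ℂ) (hK : K.Nonempty) (D : ℝ) (hD : 1 ≤ D)
    (h : ∀ x ∈ K, ∀ y ∈ K, ‖x - y‖ ≤ D) (n : ℕ) (hn : 2 ≤ n) :
    nthDiam K (n + 1) ≤ nthDiam K n := by
  rw [nthDiam_eq K (n + 1)]
  apply csSup_le
  · obtain ⟨x, hx⟩ := hK
    exact ⟨_, fun _ => x, fun _ => hx, rfl⟩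
  rintro x ⟨z, hz, rfl⟩
  rw [F_eq]
  have hn1 : (2 : ℝ) ≤ n := by exact_mod_cast hn
  have hexp : (0 : ℝ) < 1 / (((n + 1 : ℕ) : ℝ) * (((n + 1 : ℕ) : ℝ) - 1)) := by
    push_cast
    have : (0 : ℝ) < ((n : ℝ) + 1) * ((n : ℝ) + 1 - 1) := by nlinarith
    positivity
  rcases (F_nonneg z).eq_or_lt with h0 | h0
  · rw [← h0, Real.zero_rpow hexp.ne']
    exact nthDiam_nonneg K n
  have h1 := F_pow z hn h0
  have h2 : F z ^ (n - 1) ≤ (nthDiam K n ^ (n * (n + 1))) ^ (n - 1) := by
    rw [h1]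
    calc ∏ k : Fin (n + 1), F (fun a => z (k.succAbove a)) ≤
        ∏ _k : Fin (n + 1), nthDiam K n ^ (n * (n - 1)) := by
          apply Finset.prod_le_prod
          · intro k _; exact F_nonneg _
          · intro k _
            exact F_le_nthDiam K D hD h n hn _ (fun a => hz _)
      _ = (nthDiam K n ^ (n * (n + 1))) ^ (n - 1) := by
          rw [Finset.prod_const, Finset.card_univ, Fintype.card_fin, ← pow_mul, ← pow_mul]
          congr 1
          ring
  have h3 : F z ≤ nthDiam K n ^ (n * (n + 1)) :=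
    (pow_le_pow_iff_left₀ h0.le (pow_nonneg (nthDiam_nonneg K n) _) (by omega)).1 h2
  calc F z ^ (1 / (((n + 1 : ℕ) : ℝ) * (((n + 1 : ℕ) : ℝ) - 1))) ≤
      (nthDiam K n ^ (n * (n + 1))) ^ (1 / (((n + 1 : ℕ) : ℝ) * (((n + 1 : ℕ) : ℝ) - 1))) :=
        Real.rpow_le_rpow h0.le h3 hexp.le
    _ = nthDiam K n := by
        rw [← Real.rpow_natCast, ← Real.rpow_mul (nthDiam_nonneg K n)]
        have : ((n * (n + 1) : ℕ) : ℝ) * (1 / (((n + 1 : ℕ) : ℝ) * (((n + 1 : ℕ) : ℝ) - 1))) = 1 := by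
          push_cast
          have h4 : (n : ℝ) ≠ 0 := by linarith
          have h5 : (n : ℝ) + 1 ≠ 0 := by linarith
          rw [add_sub_cancel_right]
          field_simp
        rw [this, Real.rpow_one]

lemma prod_dist_fact (n i : ℕ) (hi : i < n) :
    ∏ j ∈ range n, (if i = j then (1 : ℝ) else |(i : ℝ) - j|) =
      i.factorial * (n - 1 - i).factorial := by
  have h1 : range n = range (i + 1 + (n - 1 - i)) := by congr 1; omega
  rw [h1, Finset.prod_range_add, Finset.prod_range_succ, if_pos rfl, mul_one]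
  congr 1
  · rw [← Finset.prod_range_reflect, ← Finset.prod_range_add_one_eq_factorial]
    push_cast
    apply Finset.prod_congr rfl
    intro j hj
    rw [Finset.mem_range] at hj
    rw [if_neg (by omega)]
    rw [Nat.sub_sub, Nat.cast_sub (by omega)]
    push_cast
    rw [show (i : ℝ) - (i - (1 + j)) = j + 1 by ring, abs_of_nonneg (by positivity)]
  · rw [← Finset.prod_range_add_one_eq_factorial]
    push_cast
    apply Finset.prod_congr rfl
    intro j hj
    rw [if_neg (by omega)]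
    rw [show (i : ℝ) - (i + 1 + j) = -(j + 1) by ring, abs_neg, abs_of_nonneg (by positivity)]

lemma nthDiam_lower (K : Set ℂ) (hK : ∀ t : ℝ, 0 ≤ t → t ≤ 1 → (t : ℂ) ∈ K) (D : ℝ) (hD : 1 ≤ D)
    (h : ∀ x ∈ K, ∀ y ∈ K, ‖x - y‖ ≤ D) (n : ℕ) (hn : 2 ≤ n) :
    1 / (4 * Real.exp 1) ≤ nthDiam K n := by
  set z : Fin n → ℂ := fun i => (((i : ℕ) : ℝ) / (n : ℝ) : ℝ) with hz
  have hn0 : (0 : ℝ) < n := by
    have : (2 : ℝ) ≤ n := by exact_mod_cast hn
    linarith
  have hzK : ∀ i, z i ∈ K := by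
    intro i
    apply hK
    · positivity
    · rw [div_le_one hn0]
      exact_mod_cast i.2.le
  have he := Real.exp_pos 1
  have hF : (1 / (4 * Real.exp 1)) ^ (n * (n - 1)) ≤ F z := by
    unfold F
    rw [mul_comm n (n - 1), pow_mul]
    have hc : ((1 / (4 * Real.exp 1)) ^ (n - 1)) ^ n =
        ∏ _i : Fin n, ((1 / (4 * Real.exp 1)) ^ (n - 1)) := by
      rw [Finset.prod_const, Finset.card_univ, Fintype.card_fin]
    rw [hc]
    apply Finset.prod_le_prod
    · intro i _; positivity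
    · intro i _
      have e1 : (∏ j, if i = j then (1 : ℝ) else ‖z i - z j‖) =
          (∏ j ∈ range n, (if (i : ℕ) = j then (1 : ℝ) else |((i : ℕ) : ℝ) - j|)) / n ^ (n - 1) := by
        have e2 : ∀ j : Fin n, (if i = j then (1 : ℝ) else ‖z i - z j‖) =
            (if (i : ℕ) = j then (1 : ℝ) else |((i : ℕ) : ℝ) - ((j : ℕ) : ℝ)|) /
              (if (i : ℕ) = j then (1 : ℝ) else n) := by
          intro j
          by_cases hij : i = j
          · subst hij; simp
          · have hij' : (i : ℕ) ≠ j := fun h => hij (Fin.ext h)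
            rw [if_neg hij, if_neg hij', if_neg hij']
            rw [hz]
            simp only
            rw [← Complex.ofReal_sub, Complex.norm_real, Real.norm_eq_abs, ← sub_div, abs_div,
              abs_of_pos hn0]
        simp_rw [e2]
        rw [Finset.prod_div_distrib]
        congr 1
        · rw [← Fin.prod_univ_eq_prod_range
            (fun j => if (i : ℕ) = j then (1 : ℝ) else |((i : ℕ) : ℝ) - (j : ℝ)|) n]
        · rw [Finset.prod_ite]
          simp only [prod_const_one, one_mul, prod_const]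
          congr 1
          have : (univ.filter fun x : Fin n => ¬ ((i : ℕ) = x)) = univ.erase i := by
            ext x
            simp only [mem_filter, mem_univ, true_and, mem_erase, and_true]
            constructor
            · intro h1 h2; exact h1 (by rw [h2])
            · intro h1 h2; exact h1 (Fin.ext h2.symm)
          rw [this, Finset.card_erase_of_mem (mem_univ i), Finset.card_univ, Fintype.card_fin]
      rw [e1, prod_dist_fact n i i.2]
      -- i! (m-i)! ≥ m!/2^m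
      set m := n - 1 with hm
      have him : (i : ℕ) ≤ m := by omega
      have e3 : (m.factorial : ℝ) ≤ 2 ^ m * ((i : ℕ).factorial * (m - i).factorial) := by
        have := Nat.choose_mul_factorial_mul_factorial him
        have h4 : ((m.choose i : ℕ) : ℝ) ≤ 2 ^ m := by exact_mod_cast Nat.choose_le_two_pow m i
        calc (m.factorial : ℝ) = (m.choose i : ℝ) * ((i : ℕ).factorial * (m - i).factorial) := by
              rw [← mul_assoc]; exact_mod_cast this.symm
          _ ≤ _ := by gcongr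
      have e4 : ((m : ℝ)) ^ m ≤ Real.exp 1 ^ m * m.factorial := by
        have := Real.pow_div_factorial_le_exp (m : ℝ) (Nat.cast_nonneg m) m
        rw [div_le_iff₀ (by positivity)] at this
        rwa [← Real.exp_nat_mul, mul_one]
      have e5 : (n : ℝ) ≤ 2 * m := by
        have : n ≤ 2 * m := by omega
        exact_mod_cast this
      rw [le_div_iff₀ (by positivity), one_div, inv_pow, inv_mul_le_iff₀ (by positivity)]
      calc (n : ℝ) ^ m ≤ (2 * m) ^ m := by gcongr
        _ = 2 ^ m * (m : ℝ) ^ m := by rw [mul_pow]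
        _ ≤ 2 ^ m * (Real.exp 1 ^ m * m.factorial) := by gcongr
        _ ≤ 2 ^ m * (Real.exp 1 ^ m * (2 ^ m * ((i : ℕ).factorial * (m - i).factorial))) := by gcongr
        _ = (4 * Real.exp 1) ^ m * ((i : ℕ).factorial * (m - i).factorial) := by
            rw [mul_pow, show (4 : ℝ) = 2 * 2 by norm_num, mul_pow]
            ring
  have h2 := F_le_nthDiam K D hD h n hn z hzK
  exact (pow_le_pow_iff_left₀ (by positivity) (nthDiam_nonneg K n)
    (by have : 0 < n * (n - 1) := Nat.mul_pos (by omega) (by omega); omega)).1 (hF.trans h2)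

/-- The transfinite diameter of a bounded set containing `[0,1]` exists and is at least
`1/(4e)`. -/
theorem exists_transfiniteDiameter (K : Set ℂ)
    (hK : ∀ t : ℝ, 0 ≤ t → t ≤ 1 → (t : ℂ) ∈ K) (D : ℝ) (hD : 1 ≤ D)
    (h : ∀ x ∈ K, ∀ y ∈ K, ‖x - y‖ ≤ D) :
    ∃ c : ℝ, 1 / (4 * Real.exp 1) ≤ c ∧ IsTransfiniteDiameter K c := by
  have hne : K.Nonempty := ⟨_, hK 0 le_rfl zero_le_one⟩
  have hanti : Antitone (fun n => nthDiam K (n + 2)) :=
    antitone_nat_of_succ_le fun n => nthDiam_succ_le K hne D hD h (n + 2) (by omega)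
  have hbdd : BddBelow (Set.range fun n => nthDiam K (n + 2)) :=
    ⟨0, by rintro _ ⟨n, rfl⟩; exact nthDiam_nonneg K _⟩
  have hlim := tendsto_atTop_ciInf hanti hbdd
  refine ⟨⨅ n, nthDiam K (n + 2), ?_, ?_⟩
  · exact le_ciInf fun n => nthDiam_lower K hK D hD h (n + 2) (by omega)
  · exact (tendsto_add_atTop_iff_nat 2).1 hlim

end Run7.h936.Gef
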