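import Mathlib

/-!
Deterministic part of the disproof of the capacity conjecture for the hole probability of the
Gaussian entire function: if the first `N` coefficients are very close to the ones of
`exp (z^2/2)` and the other ones are not too large, then the series has no zero near the real axis.
-/

namespace Run7.h936.Gef

open Complex Finset

/-- the coefficients of `exp (z^2/2)` with respect to the functions `z^n / √(n!)`. -/
noncomputable def bcoef (n : ℕ) : ℝ :=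
  if Even n then Real.sqrt (n.factorial) / (2 ^ (n / 2) * (n / 2).factorial) else 0

lemma bcoef_nonneg (n : ℕ) : 0 ≤ bcoef n := by
  unfold bcoef
  split_ifs
  · positivity
  · exact le_rfl

lemma bcoef_le_one (n : ℕ) : bcoef n ≤ 1 := by
  unfold bcoef
  split_ifs with h
  · obtain ⟨k, rfl⟩ := h
    have h1 : (k + k) / 2 = k := by omega
    rw [h1, div_le_one (by positivity)]
    rw [Real.sqrt_le_left (by positivity)]
    have h2 : ((k + k).factorial : ℝ) = ((k + k).choose k : ℝ) * k.factorial * k.factorial := by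
      have := Nat.add_choose_mul_factorial_mul_factorial k k
      exact_mod_cast this.symm
    rw [h2]
    have h3 : ((k + k).choose k : ℝ) ≤ 2 ^ (k + k) := by
      exact_mod_cast Nat.choose_le_two_pow (k + k) k
    calc ((k + k).choose k : ℝ) * k.factorial * k.factorial
        ≤ 2 ^ (k + k) * k.factorial * k.factorial := by gcongr
      _ = (2 ^ k * (k.factorial : ℝ)) ^ 2 := by ring
  · exact zero_le_one

lemma hasSum_bcoef (z : ℂ) :
    HasSum (fun n : ℕ => (bcoef n : ℂ) * z ^ n / (Real.sqrt (n.factorial) : ℂ))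
      (Complex.exp (z ^ 2 / 2)) := by
  have h1 : HasSum (fun k : ℕ => (z ^ 2 / 2) ^ k / (k.factorial : ℂ)) (Complex.exp (z ^ 2 / 2)) := by
    have := NormedSpace.expSeries_div_hasSum_exp (z ^ 2 / 2)
    rwa [← Complex.exp_eq_exp_ℂ] at this
  have hinj : Function.Injective (fun k : ℕ => 2 * k) := by
    intro a b h
    simpa using h
  rw [← hinj.hasSum_iff]
  · convert h1 using 1
    funext k
    have h2 : (2 * k) / 2 = k := by omega
    have h3 : Even (2 * k) := even_two_mul k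
    have h4 : (Real.sqrt ((2 * k).factorial) : ℂ) ≠ 0 := by
      norm_cast
      positivity
    simp only [Function.comp, bcoef, h3, if_true, h2]
    push_cast
    rw [div_pow, pow_mul]
    field_simp
  · intro n hn
    have : ¬ Even n := by
      intro he
      apply hn
      obtain ⟨k, rfl⟩ := he
      exact ⟨k, by ring⟩
    simp [bcoef, this]

lemma factorial_bound (n : ℕ) (s : ℝ) (hs : 0 ≤ s) (h : 64 * Real.exp 1 * s ≤ n) :
    s ^ n / n.factorial ≤ (1 / 64) ^ n := by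
  have h1 : ((n : ℝ)) ^ n / n.factorial ≤ Real.exp n :=
    Real.pow_div_factorial_le_exp _ (Nat.cast_nonneg n) n
  have he : 0 < Real.exp 1 := Real.exp_pos 1
  have h2 : s ≤ (n : ℝ) / (64 * Real.exp 1) := by
    rw [le_div_iff₀ (by positivity)]
    linarith
  have h3 : s ^ n ≤ ((n : ℝ) / (64 * Real.exp 1)) ^ n := by gcongr
  have hf : (0 : ℝ) < n.factorial := by positivity
  calc s ^ n / n.factorial ≤ ((n : ℝ) / (64 * Real.exp 1)) ^ n / n.factorial := by gcongr
    _ = ((n : ℝ) ^ n / n.factorial) / (64 ^ n * Real.exp n) := by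
        rw [div_pow, mul_pow, ← Real.exp_nat_mul]
        field_simp
    _ ≤ Real.exp n / (64 ^ n * Real.exp n) := by gcongr
    _ = (1 / 64) ^ n := by
        rw [one_div, inv_pow]
        field_simp

lemma norm_term (z : ℂ) (n : ℕ) :
    ‖z ^ n / (Real.sqrt (n.factorial) : ℂ)‖ = Real.sqrt ((‖z‖ ^ 2) ^ n / n.factorial) := by
  rw [norm_div, norm_pow, Complex.norm_real, Real.norm_of_nonneg (Real.sqrt_nonneg _),
    Real.sqrt_div (by positivity)]
  congr 1
  rw [← pow_mul, mul_comm 2 n, pow_mul, Real.sqrt_sq (by positivity)]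

lemma norm_term_tail (z : ℂ) (n : ℕ) (h : 64 * Real.exp 1 * ‖z‖ ^ 2 ≤ n) :
    ‖z ^ n / (Real.sqrt (n.factorial) : ℂ)‖ ≤ (1 / 8) ^ n := by
  rw [norm_term]
  rw [Real.sqrt_le_left (by positivity)]
  refine (factorial_bound n _ (by positivity) h).trans (le_of_eq ?_)
  rw [← pow_mul, mul_comm n 2, pow_mul]
  norm_num

lemma sum_term_le (z : ℂ) (N : ℕ) :
    ∑ n ∈ range N, ‖z ^ n / (Real.sqrt (n.factorial) : ℂ)‖ ≤
      Real.sqrt N * Real.exp (‖z‖ ^ 2 / 2) := by
  have h1 : (∑ n ∈ range N, ‖z ^ n / (Real.sqrt (n.factorial) : ℂ)‖) ^ 2 ≤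
      (N : ℝ) * ∑ n ∈ range N, ‖z ^ n / (Real.sqrt (n.factorial) : ℂ)‖ ^ 2 := by
    have := sq_sum_le_card_mul_sum_sq (s := range N)
      (f := fun n : ℕ => ‖z ^ n / (Real.sqrt (n.factorial) : ℂ)‖)
    simpa using this
  have h2 : ∑ n ∈ range N, ‖z ^ n / (Real.sqrt (n.factorial) : ℂ)‖ ^ 2 ≤ Real.exp (‖z‖ ^ 2) := by
    have h3 : ∀ n ∈ range N, ‖z ^ n / (Real.sqrt (n.factorial) : ℂ)‖ ^ 2 =
        (‖z‖ ^ 2) ^ n / n.factorial := by
      intro n _
      rw [norm_term, Real.sq_sqrt (by positivity)]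
    rw [Finset.sum_congr rfl h3]
    exact Real.sum_le_exp_of_nonneg (by positivity) N
  have h4 : (∑ n ∈ range N, ‖z ^ n / (Real.sqrt (n.factorial) : ℂ)‖) ^ 2 ≤
      (Real.sqrt N * Real.exp (‖z‖ ^ 2 / 2)) ^ 2 := by
    rw [mul_pow, Real.sq_sqrt (Nat.cast_nonneg N), ← Real.exp_nat_mul]
    have : ((2 : ℕ) : ℝ) * (‖z‖ ^ 2 / 2) = ‖z‖ ^ 2 := by push_cast; ring
    rw [this]
    exact h1.trans (mul_le_mul_of_nonneg_left h2 (Nat.cast_nonneg N))
  exact (pow_le_pow_iff_left₀ (Finset.sum_nonneg fun _ _ => norm_nonneg _) (by positivity)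
    (by norm_num)).1 h4

/-- Deterministic statement: no zeros. -/
theorem no_zero (a : ℕ → ℂ) (N : ℕ) (hN4 : 4 ≤ N) (η : ℝ) (hη : 0 ≤ η) (z : ℂ)
    (h1 : ∀ n < N, ‖a n - bcoef n‖ ≤ η) (h2 : ∀ n, N ≤ n → ‖a n‖ ≤ 2 ^ (n + 1))
    (hN : 64 * Real.exp 1 * ‖z‖ ^ 2 ≤ N)
    (hη2 : η * Real.sqrt N ≤ 1 / 4 * Real.exp (-(z.im) ^ 2)) :
    ∑' n : ℕ, a n * z ^ n / (Real.sqrt (n.factorial) : ℂ) ≠ 0 := by
  set T : ℕ → ℂ := fun n => z ^ n / (Real.sqrt (n.factorial) : ℂ) with hT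
  set t : ℕ → ℂ := fun n => (a n - bcoef n) * T n with ht
  -- tail terms
  have htail : ∀ n, ‖t (n + N)‖ ≤ 3 * (1 / 4) ^ (n + N) := by
    intro n
    have hn : N ≤ n + N := Nat.le_add_left N n
    have e1 : ‖a (n + N) - bcoef (n + N)‖ ≤ 3 * 2 ^ (n + N) := by
      calc ‖a (n + N) - bcoef (n + N)‖ ≤ ‖a (n + N)‖ + ‖(bcoef (n + N) : ℂ)‖ := norm_sub_le _ _
        _ ≤ 2 ^ (n + N + 1) + 1 := by
            gcongr
            · exact h2 _ hn
            · rw [Complex.norm_real, Real.norm_of_nonneg (bcoef_nonneg _)]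
              exact bcoef_le_one _
        _ ≤ 3 * 2 ^ (n + N) := by
            have : (1 : ℝ) ≤ 2 ^ (n + N) := one_le_pow₀ (by norm_num)
            rw [pow_succ]
            linarith
    have e2 : ‖T (n + N)‖ ≤ (1 / 8) ^ (n + N) := by
      apply norm_term_tail
      refine hN.trans ?_
      exact_mod_cast hn
    calc ‖t (n + N)‖ = ‖a (n + N) - bcoef (n + N)‖ * ‖T (n + N)‖ := norm_mul _ _
      _ ≤ (3 * 2 ^ (n + N)) * (1 / 8) ^ (n + N) := by gcongr
      _ = 3 * (1 / 4) ^ (n + N) := by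
          rw [mul_assoc, ← mul_pow]
          norm_num
  have hgeo : Summable (fun n : ℕ => 3 * (1 / 4 : ℝ) ^ (n + N)) := by
    have : Summable (fun n : ℕ => (1 / 4 : ℝ) ^ (n + N)) := by
      have h := summable_geometric_of_lt_one (r := (1 / 4 : ℝ)) (by norm_num) (by norm_num)
      exact (summable_nat_add_iff N).2 h
    exact this.mul_left 3
  have hsumtail : Summable (fun n => ‖t (n + N)‖) :=
    Summable.of_nonneg_of_le (fun _ => norm_nonneg _) htail hgeo
  have hsum : Summable (fun n => ‖t n‖) := (summable_nat_add_iff N).1 hsumtail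
  have hgeoval : ∑' n : ℕ, 3 * (1 / 4 : ℝ) ^ (n + N) = 4 * (1 / 4) ^ N := by
    rw [tsum_mul_left]
    simp_rw [pow_add]
    rw [tsum_mul_right, tsum_geometric_of_lt_one (by norm_num) (by norm_num)]
    ring
  have htsum : ∑' n, ‖t n‖ ≤ η * (Real.sqrt N * Real.exp (‖z‖ ^ 2 / 2)) + 4 * (1 / 4) ^ N := by
    rw [← hsum.sum_add_tsum_nat_add N]
    apply add_le_add
    · calc ∑ n ∈ range N, ‖t n‖ ≤ ∑ n ∈ range N, η * ‖T n‖ := by
            apply Finset.sum_le_sum
            intro n hn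
            rw [ht, norm_mul]
            exact mul_le_mul_of_nonneg_right (h1 n (Finset.mem_range.1 hn)) (norm_nonneg _)
        _ = η * ∑ n ∈ range N, ‖T n‖ := by rw [Finset.mul_sum]
        _ ≤ _ := mul_le_mul_of_nonneg_left (sum_term_le z N) hη
    · rw [← hgeoval]
      exact hsumtail.tsum_le_tsum htail hgeo
  -- size of exp (z^2/2)
  have hg : ‖Complex.exp (z ^ 2 / 2)‖ = Real.exp (‖z‖ ^ 2 / 2) * Real.exp (-(z.im) ^ 2) := by
    rw [Complex.norm_exp, ← Real.exp_add]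
    congr 1
    have h3 : ‖z‖ ^ 2 = z.re ^ 2 + z.im ^ 2 := by
      rw [← Complex.normSq_eq_norm_sq, Complex.normSq_apply]
      ring
    rw [h3]
    have h4 : (z ^ 2 / 2).re = (z.re ^ 2 - z.im ^ 2) / 2 := by
      rw [show z ^ 2 / 2 = z * z / ((2 : ℝ) : ℂ) by push_cast; ring, Complex.div_ofReal_re,
        Complex.mul_re]
      ring
    rw [h4]
    ring
  have hzim : z.im ^ 2 ≤ ‖z‖ ^ 2 := by
    have := Complex.abs_im_le_norm z
    exact sq_le_sq' (by linarith [neg_abs_le z.im, norm_nonneg z]) (le_trans (le_abs_self _) this)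
  have hexp1 : (1 : ℝ) ≤ Real.exp (‖z‖ ^ 2 / 2) := Real.one_le_exp (by positivity)
  have h4N : 4 * (1 / 4 : ℝ) ^ N ≤ 1 / 4 * Real.exp (-(z.im) ^ 2) := by
    have e1 : (1 / 4 : ℝ) ≤ Real.exp (-1) := by
      have := Real.exp_one_lt_d9
      rw [Real.exp_neg, ← one_div]
      apply one_div_le_one_div_of_le (Real.exp_pos 1)
      linarith
    -- 16 (1/4)^N ≤ exp(-im^2)
    have e2 : (1 / 4 : ℝ) ^ N = (1 / 2) ^ N * (1 / 2) ^ N := by rw [← mul_pow]; norm_num
    have e3 : (1 / 2 : ℝ) ^ N ≤ 1 / 16 := by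
      calc (1 / 2 : ℝ) ^ N ≤ (1 / 2) ^ 4 := pow_le_pow_of_le_one (by norm_num) (by norm_num) hN4
        _ = 1 / 16 := by norm_num
    have e4 : (1 / 2 : ℝ) ^ N ≤ Real.exp (-(z.im) ^ 2) := by
      have e5 : (1 / 2 : ℝ) ≤ Real.exp (-(1 / 2)) := by
        have := Real.add_one_le_exp (-(1 / 2) : ℝ)
        linarith
      have he : (2 : ℝ) ≤ Real.exp 1 := by
        have := Real.add_one_le_exp (1 : ℝ)
        linarith
      calc (1 / 2 : ℝ) ^ N ≤ (Real.exp (-(1 / 2))) ^ N := by gcongr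
        _ = Real.exp (-(N / 2)) := by rw [← Real.exp_nat_mul]; congr 1; ring
        _ ≤ Real.exp (-(z.im) ^ 2) := by
            apply Real.exp_le_exp.2
            have : 128 * ‖z‖ ^ 2 ≤ 64 * Real.exp 1 * ‖z‖ ^ 2 := by
              have : 0 ≤ ‖z‖ ^ 2 := by positivity
              nlinarith
            nlinarith [sq_nonneg ‖z‖]
    rw [e2]
    have e6 : (0 : ℝ) ≤ (1 / 2) ^ N := by positivity
    nlinarith
  have hlt : ∑' n, ‖t n‖ < ‖Complex.exp (z ^ 2 / 2)‖ := by
    rw [hg]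
    have hp : 0 < Real.exp (-(z.im) ^ 2) := Real.exp_pos _
    have hp2 : 0 < Real.exp (‖z‖ ^ 2 / 2) := Real.exp_pos _
    calc ∑' n, ‖t n‖ ≤ η * (Real.sqrt N * Real.exp (‖z‖ ^ 2 / 2)) + 4 * (1 / 4) ^ N := htsum
      _ = (η * Real.sqrt N) * Real.exp (‖z‖ ^ 2 / 2) + 4 * (1 / 4) ^ N := by ring
      _ ≤ (1 / 4 * Real.exp (-(z.im) ^ 2)) * Real.exp (‖z‖ ^ 2 / 2) +
          1 / 4 * Real.exp (-(z.im) ^ 2) := by gcongr
      _ ≤ (1 / 4 * Real.exp (-(z.im) ^ 2)) * Real.exp (‖z‖ ^ 2 / 2) +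
          1 / 4 * Real.exp (-(z.im) ^ 2) * Real.exp (‖z‖ ^ 2 / 2) := by
            have h7 : 1 / 4 * Real.exp (-(z.im) ^ 2) ≤
                1 / 4 * Real.exp (-(z.im) ^ 2) * Real.exp (‖z‖ ^ 2 / 2) :=
              le_mul_of_one_le_right (by positivity) hexp1
            linarith
      _ < Real.exp (‖z‖ ^ 2 / 2) * Real.exp (-(z.im) ^ 2) := by
            have : 0 < Real.exp (‖z‖ ^ 2 / 2) * Real.exp (-(z.im) ^ 2) := by positivity
            nlinarith
  have hts : Summable t := hsum.of_norm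
  have hS : HasSum (fun n => a n * z ^ n / (Real.sqrt (n.factorial) : ℂ))
      (Complex.exp (z ^ 2 / 2) + ∑' n, t n) := by
    have := (hasSum_bcoef z).add hts.hasSum
    convert this using 1
    funext n
    simp only [ht, hT]
    ring
  rw [hS.tsum_eq]
  intro h0
  have h5 : Complex.exp (z ^ 2 / 2) = - ∑' n, t n := by
    rw [← sub_eq_zero, sub_neg_eq_add]
    exact h0
  have h6 : ‖Complex.exp (z ^ 2 / 2)‖ ≤ ∑' n, ‖t n‖ := by
    rw [h5, norm_neg]
    exact norm_tsum_le_tsum_norm hsum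
  linarith

end Run7.h936.Gef
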