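import Mathlib

/-!
Probabilistic part: the standard complex Gaussian law and the probability of a product event.
-/

namespace Run7.h936.Gef

open MeasureTheory ProbabilityTheory Set Filter Topology

/-- The standard complex Gaussian law: density `(1/π) exp (-|w|^2)` with respect to Lebesgue
measure on `ℂ`. -/
noncomputable def stdComplexGaussian : Measure ℂ :=
  (volume : Measure ℂ).withDensity (fun w => ENNReal.ofReal (Real.exp (-‖w‖ ^ 2) / Real.pi))

lemma integral_exp : ∫ w : ℂ, Real.exp (-‖w‖ ^ 2) = Real.pi := by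
  have h := Complex.integral_rpow_mul_exp_neg_rpow (p := 2) (q := 0) (by norm_num) (by norm_num)
  simp only [Real.rpow_zero, one_mul, zero_add, Real.rpow_two] at h
  rw [h]
  norm_num

lemma integral_sq_exp : ∫ w : ℂ, ‖w‖ ^ 2 * Real.exp (-‖w‖ ^ 2) = Real.pi := by
  have h := Complex.integral_rpow_mul_exp_neg_rpow (p := 2) (q := 2) (by norm_num) (by norm_num)
  simp only [Real.rpow_two] at h
  rw [h]
  norm_num

lemma integrable_exp : Integrable (fun w : ℂ => Real.exp (-‖w‖ ^ 2)) := by
  by_contra h
  have := integral_undef h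
  rw [integral_exp] at this
  exact Real.pi_ne_zero this

lemma integrable_sq_exp : Integrable (fun w : ℂ => ‖w‖ ^ 2 * Real.exp (-‖w‖ ^ 2)) := by
  by_contra h
  have := integral_undef h
  rw [integral_sq_exp] at this
  exact Real.pi_ne_zero this

lemma measurable_dens : Measurable (fun w : ℂ => ENNReal.ofReal (Real.exp (-‖w‖ ^ 2) / Real.pi)) := by
  fun_prop

instance : IsProbabilityMeasure stdComplexGaussian := by
  constructor
  unfold stdComplexGaussian
  rw [withDensity_apply _ MeasurableSet.univ, Measure.restrict_univ,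
    ← ofReal_integral_eq_lintegral_ofReal]
  · rw [integral_div, integral_exp, div_self Real.pi_ne_zero, ENNReal.ofReal_one]
  · exact integrable_exp.div_const _
  · exact Filter.Eventually.of_forall fun w => by positivity

lemma lintegral_sq : ∫⁻ w, ENNReal.ofReal (‖w‖ ^ 2) ∂stdComplexGaussian = 1 := by
  unfold stdComplexGaussian
  rw [lintegral_withDensity_eq_lintegral_mul _ measurable_dens (by fun_prop)]
  have : ∀ w : ℂ, ((fun w : ℂ => ENNReal.ofReal (Real.exp (-‖w‖ ^ 2) / Real.pi)) *
      fun w : ℂ => ENNReal.ofReal (‖w‖ ^ 2)) w =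
      ENNReal.ofReal (‖w‖ ^ 2 * Real.exp (-‖w‖ ^ 2) / Real.pi) := by
    intro w
    rw [Pi.mul_apply, ← ENNReal.ofReal_mul (by positivity)]
    congr 1
    ring
  simp_rw [this]
  rw [← ofReal_integral_eq_lintegral_ofReal]
  · rw [integral_div, integral_sq_exp, div_self Real.pi_ne_zero, ENNReal.ofReal_one]
  · exact integrable_sq_exp.div_const _
  · exact Filter.Eventually.of_forall fun w => by positivity

/-- Markov bound for the tail. -/
lemma gauss_tail (t : ℝ) (ht : 0 < t) :
    1 - 1 / t ^ 2 ≤ stdComplexGaussian.real (Metric.closedBall 0 t) := by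
  have h1 : stdComplexGaussian {w : ℂ | ENNReal.ofReal (t ^ 2) ≤ ENNReal.ofReal (‖w‖ ^ 2)} ≤
      1 / ENNReal.ofReal (t ^ 2) := by
    have := meas_ge_le_lintegral_div (μ := stdComplexGaussian)
      (f := fun w : ℂ => ENNReal.ofReal (‖w‖ ^ 2)) (by fun_prop) (ε := ENNReal.ofReal (t ^ 2))
      (by simpa using by positivity) ENNReal.ofReal_ne_top
    rwa [lintegral_sq] at this
  have h2 : (Metric.closedBall (0 : ℂ) t)ᶜ ⊆
      {w : ℂ | ENNReal.ofReal (t ^ 2) ≤ ENNReal.ofReal (‖w‖ ^ 2)} := by
    intro w hw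
    simp only [mem_compl_iff, Metric.mem_closedBall, dist_zero_right, not_le] at hw
    simp only [Set.mem_ofPred_eq]
    apply ENNReal.ofReal_le_ofReal
    gcongr
  have h3 : stdComplexGaussian.real (Metric.closedBall (0 : ℂ) t)ᶜ ≤ 1 / t ^ 2 := by
    unfold Measure.real
    have := (measure_mono h2).trans h1
    refine ENNReal.toReal_le_of_le_ofReal (by positivity) (this.trans (le_of_eq ?_))
    rw [one_div, one_div, ENNReal.ofReal_inv_of_pos (by positivity)]
  have h4 := probReal_compl_eq_one_sub (μ := stdComplexGaussian)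
    (s := Metric.closedBall (0 : ℂ) t) Metric.isClosed_closedBall.measurableSet
  linarith

/-- Lower bound for the probability of a small disk. -/
lemma gauss_ball (b : ℂ) (hb : ‖b‖ ≤ 1) (η : ℝ) (hη : 0 < η) (hη1 : η ≤ 1) :
    η ^ 2 * Real.exp (-4) ≤ stdComplexGaussian.real (Metric.closedBall b η) := by
  have hpi := Real.pi_pos
  have h1 : ENNReal.ofReal (η ^ 2 * Real.exp (-4)) ≤ stdComplexGaussian (Metric.closedBall b η) := by
    unfold stdComplexGaussian
    rw [withDensity_apply _ Metric.isClosed_closedBall.measurableSet]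
    calc ENNReal.ofReal (η ^ 2 * Real.exp (-4))
        = ENNReal.ofReal (Real.exp (-4) / Real.pi) * volume (Metric.closedBall b η) := by
          rw [Complex.volume_closedBall, ← ENNReal.ofReal_pow hη.le,
            show ((NNReal.pi : ENNReal)) = ENNReal.ofReal Real.pi from ?_,
            ← ENNReal.ofReal_mul (by positivity), ← ENNReal.ofReal_mul (by positivity)]
          · congr 1
            field_simp
          · rw [← NNReal.coe_real_pi, ENNReal.ofReal_coe_nnreal]
      _ = ∫⁻ _w in Metric.closedBall b η, ENNReal.ofReal (Real.exp (-4) / Real.pi) := by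
          rw [setLIntegral_const]
      _ ≤ ∫⁻ w in Metric.closedBall b η, ENNReal.ofReal (Real.exp (-‖w‖ ^ 2) / Real.pi) := by
          apply setLIntegral_mono measurable_dens
          intro w hw
          apply ENNReal.ofReal_le_ofReal
          gcongr
          have hw1 : ‖w - b‖ ≤ η := by simpa [dist_eq_norm] using hw
          have hw2 : ‖w‖ ≤ 2 := by
            calc ‖w‖ = ‖(w - b) + b‖ := by ring_nf
              _ ≤ ‖w - b‖ + ‖b‖ := norm_add_le _ _
              _ ≤ 2 := by linarith
          nlinarith [norm_nonneg w]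
  unfold Measure.real
  exact (ENNReal.ofReal_le_iff_le_toReal (measure_ne_top _ _)).1 h1

lemma prod_lower (x : ℕ → ℝ) (hx0 : ∀ n, 0 ≤ x n) (hx1 : ∀ n, x n ≤ 1)
    (M : ℕ) (u : ℕ → ℝ) (hu : ∀ n, 1 - u n ≤ x n) :
    1 - ∑ n ∈ Finset.range M, u n ≤ ∏ n ∈ Finset.range M, x n := by
  induction M with
  | zero => simp
  | succ M ih =>
    rw [Finset.sum_range_succ, Finset.prod_range_succ]
    have h1 : ∏ n ∈ Finset.range M, x n ≤ 1 := Finset.prod_le_one (fun i _ => hx0 i) fun i _ => hx1 i
    have h0 : 0 ≤ ∏ n ∈ Finset.range M, x n := Finset.prod_nonneg fun i _ => hx0 i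
    have h2 := hu M
    have h3 := hx1 M
    have h4 := hx0 M
    have : (∏ n ∈ Finset.range M, x n) * (1 - x M) ≤ 1 * (1 - x M) := by
      apply mul_le_mul_of_nonneg_right h1; linarith
    nlinarith

/-- Probability of the product event. -/
theorem prob_event {Ω : Type*} [MeasurableSpace Ω] (P : Measure Ω) [IsProbabilityMeasure P]
    (ξ : ℕ → Ω → ℂ) (hlaw : ∀ n, HasLaw (ξ n) stdComplexGaussian P) (hind : iIndepFun ξ P)
    (b : ℕ → ℂ) (hb : ∀ n, ‖b n‖ ≤ 1) (N : ℕ) (η : ℝ) (hη : 0 < η) (hη1 : η ≤ 1) :
    (η ^ 2 * Real.exp (-4)) ^ N * (1 / 2) ≤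
      P.real {ω | (∀ n < N, ‖ξ n ω - b n‖ ≤ η) ∧ ∀ n, N ≤ n → ‖ξ n ω‖ ≤ 2 ^ (n + 1)} := by
  classical
  set S : ℕ → Set ℂ := fun n => if n < N then Metric.closedBall (b n) η else
    Metric.closedBall 0 (2 ^ (n + 1)) with hS
  have hSm : ∀ n, MeasurableSet (S n) := by
    intro n
    simp only [hS]
    split_ifs <;> exact Metric.isClosed_closedBall.measurableSet
  set A : ℕ → Set Ω := fun M => ⋂ i ∈ Finset.range M, ξ i ⁻¹' S i with hA
  have hAeq : {ω | (∀ n < N, ‖ξ n ω - b n‖ ≤ η) ∧ ∀ n, N ≤ n → ‖ξ n ω‖ ≤ 2 ^ (n + 1)} =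
      ⋂ M, A M := by
    ext ω
    simp only [Set.mem_ofPred_eq, hA, mem_iInter, Finset.mem_range, mem_preimage, hS]
    constructor
    · rintro ⟨h1, h2⟩ M n _
      split_ifs with hn
      · simpa [dist_eq_norm] using h1 n hn
      · simpa using h2 n (not_lt.1 hn)
    · intro h
      refine ⟨fun n hn => ?_, fun n hn => ?_⟩
      · have := h (n + 1) n (Nat.lt_succ_self n)
        rw [if_pos hn] at this
        simpa [dist_eq_norm] using this
      · have := h (n + 1) n (Nat.lt_succ_self n)
        rw [if_neg (not_lt.2 hn)] at this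
        simpa using this
  rw [hAeq]
  have hmeas : ∀ i, NullMeasurableSet (ξ i ⁻¹' S i) P := fun i =>
    (hlaw i).aemeasurable.nullMeasurableSet_preimage (hSm i)
  have hAm : ∀ M, NullMeasurableSet (A M) P := fun M =>
    NullMeasurableSet.biInter (Finset.countable_toSet _) fun i _ => hmeas i
  have hanti : Antitone A := by
    intro M M' h
    apply biInter_mono
    · intro i hi
      simp only [Finset.mem_coe, Finset.mem_range] at hi ⊢
      exact lt_of_lt_of_le hi h
    · intro i _
      exact subset_rfl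
  have hlim := tendsto_measure_iInter_atTop (μ := P) hAm hanti ⟨0, measure_ne_top _ _⟩
  have hlim' : Tendsto (fun M => P.real (A M)) atTop (𝓝 (P.real (⋂ M, A M))) := by
    exact (ENNReal.tendsto_toReal (measure_ne_top _ _)).comp hlim
  have hPS : ∀ n, P.real (ξ n ⁻¹' S n) = stdComplexGaussian.real (S n) := by
    intro n
    unfold Measure.real
    rw [← (hlaw n).map_eq, Measure.map_apply_of_aemeasurable (hlaw n).aemeasurable (hSm n)]
  have hprod : ∀ M, P.real (A M) = ∏ n ∈ Finset.range M, stdComplexGaussian.real (S n) := by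
    intro M
    have h1 := hind.measure_inter_preimage_eq_mul (Finset.range M) (sets := S) (fun i _ => hSm i)
    simp only [hA]
    unfold Measure.real
    rw [h1, ENNReal.toReal_prod]
    exact Finset.prod_congr rfl fun n _ => hPS n
  have hlow : ∀ M, N ≤ M → (η ^ 2 * Real.exp (-4)) ^ N * (1 / 2) ≤ P.real (A M) := by
    intro M hM
    rw [hprod]
    obtain ⟨k, rfl⟩ := Nat.exists_eq_add_of_le hM
    rw [Finset.prod_range_add]
    have h1 : (η ^ 2 * Real.exp (-4)) ^ N ≤ ∏ n ∈ Finset.range N, stdComplexGaussian.real (S n) := by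
      have hc : (η ^ 2 * Real.exp (-4)) ^ N =
          ∏ _n ∈ Finset.range N, (η ^ 2 * Real.exp (-4)) := by
        rw [Finset.prod_const, Finset.card_range]
      rw [hc]
      apply Finset.prod_le_prod
      · intro i _; positivity
      · intro i hi
        simp only [hS]
        rw [if_pos (by simpa using hi)]
        exact gauss_ball (b i) (hb i) η hη hη1
    have h2 : (1 / 2 : ℝ) ≤ ∏ x ∈ Finset.range k, stdComplexGaussian.real (S (N + x)) := by
      have h3 := prod_lower (fun x => stdComplexGaussian.real (S (N + x)))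
        (fun _ => measureReal_nonneg) (fun _ => measureReal_le_one) k (fun x => (1 / 4) ^ (x + 1)) ?_
      · refine le_trans ?_ h3
        have h4 : ∑ n ∈ Finset.range k, (1 / 4 : ℝ) ^ (n + 1) ≤ 1 / 3 := by
          have : ∀ k : ℕ, ∑ n ∈ Finset.range k, (1 / 4 : ℝ) ^ (n + 1) = 1 / 3 * (1 - (1 / 4) ^ k) := by
            intro k
            induction k with
            | zero => simp
            | succ k ih => rw [Finset.sum_range_succ, ih]; ring
          rw [this]
          have : (0 : ℝ) ≤ (1 / 4) ^ k := by positivity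
          linarith
        linarith
      · intro x
        simp only [hS]
        rw [if_neg (by omega)]
        have h5 := gauss_tail (2 ^ (N + x + 1)) (by positivity)
        refine le_trans ?_ h5
        have h6 : 1 / ((2 : ℝ) ^ (N + x + 1)) ^ 2 ≤ (1 / 4) ^ (x + 1) := by
          have h7 : 1 / ((2 : ℝ) ^ (N + x + 1)) ^ 2 = (1 / 4) ^ (N + x + 1) := by
            rw [← pow_mul, mul_comm, pow_mul, one_div_pow]
            norm_num
          rw [h7]
          apply pow_le_pow_of_le_one (by norm_num) (by norm_num)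
          omega
        linarith
    have h0 : (0 : ℝ) ≤ (η ^ 2 * Real.exp (-4)) ^ N := by positivity
    exact mul_le_mul h1 h2 (by norm_num) (Finset.prod_nonneg (fun _ _ => measureReal_nonneg))
  exact ge_of_tendsto hlim' (Filter.eventually_atTop.2 ⟨N, hlow⟩)

end Run7.h936.Gef
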